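import Pool.Agent.W560.HP.Stm
import Pool.Agent.W602.GT.Der

set_option autoImplicit false

namespace W347.HP

theorem d1 : W560.HP.S_D1 := by
  intro k F ι _ _ _ _ _ _ w hw i
  obtain ⟨s, hs, hb⟩ := exists_isTranscendenceBasis_superset (R := k) (A := F) (s := Set.range w)
    hw.coe_range
  classical
  obtain ⟨D, hD⟩ := Pool.Agent.W602.GT.exists_der (L := k) (K := F) (fun x : s => (x : F)) hb
    (fun x => if (x : F) = w i then 1 else 0)
  refine ⟨D, fun j => ?_⟩
  have h1 := hD ⟨w j, hs ⟨j, rfl⟩⟩
  simp only at h1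
  rw [h1]
  by_cases h : j = i
  · subst h; simp
  · rw [if_neg h, if_neg]
    intro h2
    exact h (hw.injective h2)

end W347.HP
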